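import Mathlib
import Pool.Agent.Helper998.VecMatroid

set_option autoImplicit false

namespace Pool.Agent.Helper998.DualRep

open Set Pool.Agent.Helper998.VecMatroid

variable {ι F V : Type*} [Field F] [AddCommGroup V] [Module F V]

theorem dual_indep_iff [Finite ι] (v : ι → V) (hv : Submodule.span F (Set.range v) = ⊤)
    {I : Set ι} :
    (vecMatroid F v)✶.Indep I ↔ Submodule.span F (v '' Iᶜ) = ⊤ := by
  rw [← Matroid.coindep_def, Matroid.coindep_iff_compl_spanning (Set.subset_univ _)]
  rw [vecMatroid_E, ← Set.compl_eq_univ_sdiff, spanning_iff, hv]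

/-- The dual of a vector matroid is representable. -/
theorem dual_rep [Fintype ι] (v : ι → V) :
    ∃ n : ℕ, ∃ φ : ι → (Fin n → F),
      ∀ I : Set ι, ((vecMatroid F v)✶.Indep I ↔ LinearIndependent F (fun x : I => φ x)) := by
  classical
  let T : Module.Dual F V →ₗ[F] (ι → F) := LinearMap.pi (fun i => LinearMap.applyₗ (v i))
  let R : Submodule F (ι → F) := LinearMap.range T
  let φ0 : ι → ((ι → F) ⧸ R) := fun i => R.mkQ (Pi.single i 1)
  have hsum : ∀ c : ι → F, ∑ i, c i • φ0 i = R.mkQ c := by
    intro c
    have : c = ∑ i, c i • (Pi.single i 1 : ι → F) := by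
      ext j
      simp [Finset.sum_apply, Pi.single_apply]
    conv_rhs => rw [this, map_sum]
    simp [φ0]
  have hT : ∀ (f : Module.Dual F V) (i : ι), T f i = f (v i) := by
    intro f i
    rfl
  have key : ∀ I : Set ι, ((vecMatroid F v)✶.Indep I ↔ LinearIndepOn F φ0 I) := by
    intro I
    have h1 : (vecMatroid F v)✶.Indep I ↔ (vecMatroid F v).Spanning Iᶜ := by
      rw [← Matroid.coindep_def, Matroid.coindep_iff_compl_spanning (Set.subset_univ _)]
      rw [vecMatroid_E, ← Set.compl_eq_univ_sdiff]
    have h2 : LinearIndepOn F φ0 I ↔ ¬ (vecMatroid F φ0).Dep I := by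
      rw [← vecMatroid_indep, Matroid.not_dep_iff (Set.subset_univ _)]
    rw [h1, h2, ← not_iff_not, not_not, not_spanning_compl_iff, dep_iff]
    constructor
    · rintro ⟨f, ⟨i, hi⟩, hs⟩
      refine ⟨T f, ?_, ?_, ?_⟩
      · intro h
        apply hi
        rw [← hT, h]
        rfl
      · rw [IsRel, hsum]
        simp only [Submodule.mkQ_apply, Submodule.Quotient.mk_eq_zero]
        exact ⟨f, rfl⟩
      · intro j hj
        exact hs hj
    · rintro ⟨c, hc, hrel, hs⟩
      rw [IsRel, hsum] at hrel
      simp only [Submodule.mkQ_apply, Submodule.Quotient.mk_eq_zero] at hrel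
      obtain ⟨f, hf⟩ := hrel
      refine ⟨f, ?_, ?_⟩
      · by_contra hcon
        push Not at hcon
        apply hc
        rw [← hf]
        ext i
        rw [hT, hcon i]
        rfl
      · intro j hj
        apply hs
        rw [Function.mem_support, ← hf, hT]
        exact hj
  let W := (ι → F) ⧸ R
  haveI : Module.Finite F W := inferInstance
  let e : W ≃ₗ[F] (Fin (Module.finrank F W) → F) := (Module.finBasis F W).equivFun
  refine ⟨Module.finrank F W, fun i => e (φ0 i), fun I => ?_⟩
  rw [key I]
  have := (LinearMap.linearIndependent_iff (e : W →ₗ[F] _) (v := fun x : I => φ0 x)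
    (by exact LinearEquiv.ker e))
  exact this.symm

end Pool.Agent.Helper998.DualRep
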