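import Mathlib
import Pool.Agent.Helper998.VecMatroid

set_option autoImplicit false

namespace Pool.Agent.Helper998.Intersecting

open Finset

/-- Each fibre over a point of the range has at least the average size. -/
theorem card_le_fiber {G H : Type*} [AddCommGroup G] [AddCommGroup H] [Fintype G] [Fintype H]
    [DecidableEq H] (f : G →+ H) {h : H} (hh : h ∈ Set.range f) :
    Fintype.card G ≤ Fintype.card H * (univ.filter (fun g => f g = h)).card := by
  classical
  have h1 : (univ : Finset G).card = ∑ b ∈ (univ : Finset H), (univ.filter (fun g => f g = b)).card :=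
    card_eq_sum_card_fiberwise (fun _ _ => mem_coe.2 (mem_univ _))
  rw [← card_univ, h1]
  have h2 : ∀ b ∈ (univ : Finset H), (univ.filter (fun g => f g = b)).card ≤
      (univ.filter (fun g => f g = h)).card := by
    intro b _
    by_cases hb : b ∈ Set.range f
    · exact (AddMonoidHom.card_fiber_eq_of_mem_range f hb hh).le
    · have : (univ.filter (fun g => f g = b)) = ∅ := by
        rw [filter_eq_empty_iff]
        intro g _ hg
        exact hb ⟨g, hg⟩
      rw [this]
      simp
  calc ∑ b ∈ (univ : Finset H), (univ.filter (fun g => f g = b)).card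
      ≤ ∑ _b ∈ (univ : Finset H), (univ.filter (fun g => f g = h)).card := sum_le_sum h2
    _ = Fintype.card H * (univ.filter (fun g => f g = h)).card := by
        rw [sum_const, card_univ, smul_eq_mul]

/-- If `f` is surjective, every fibre has exactly the average size. -/
theorem fiber_card {G H : Type*} [AddCommGroup G] [AddCommGroup H] [Fintype G] [Fintype H]
    [DecidableEq H] (f : G →+ H) (hf : Function.Surjective f) (h : H) :
    Fintype.card H * (univ.filter (fun g => f g = h)).card = Fintype.card G := by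
  classical
  have h1 : (univ : Finset G).card = ∑ b ∈ (univ : Finset H), (univ.filter (fun g => f g = b)).card :=
    card_eq_sum_card_fiberwise (fun _ _ => mem_coe.2 (mem_univ _))
  rw [← card_univ (α := G), h1]
  have h2 : ∀ b ∈ (univ : Finset H), (univ.filter (fun g => f g = b)).card =
      (univ.filter (fun g => f g = h)).card := by
    intro b _
    exact AddMonoidHom.card_fiber_eq_of_mem_range f (hf b) (hf h)
  rw [sum_congr rfl h2, sum_const, card_univ, smul_eq_mul]

abbrev W (k : ℕ) := Fin k → ZMod 2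

theorem zmod_cases (z : ZMod 2) : z = 0 ∨ z = 1 := by
  revert z
  decide

theorem exists_common {k : ℕ} {x y : W k} (hx : x ≠ 0) (hy : y ≠ 0) :
    ∃ u : W k, x ⬝ᵥ u = 1 ∧ y ⬝ᵥ u = 1 := by
  classical
  by_cases h : ∃ i, x i = 1 ∧ y i = 1
  · obtain ⟨i, h1, h2⟩ := h
    exact ⟨Pi.single i 1, by simp [h1], by simp [h2]⟩
  · push Not at h
    have hx' : ∃ i, x i = 1 := by
      by_contra hc
      push Not at hc
      exact hx (funext fun i => (zmod_cases (x i)).resolve_right (hc i))
    have hy' : ∃ i, y i = 1 := by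
      by_contra hc
      push Not at hc
      exact hy (funext fun i => (zmod_cases (y i)).resolve_right (hc i))
    obtain ⟨i, hi⟩ := hx'
    obtain ⟨j, hj⟩ := hy'
    have h1 : y i = 0 := (zmod_cases (y i)).resolve_right (h i hi)
    have h2 : x j = 0 := by
      rcases zmod_cases (x j) with h' | h'
      · exact h'
      · exact absurd hj (h j h')
    refine ⟨Pi.single i 1 + Pi.single j 1, ?_, ?_⟩
    · simp [dotProduct_add, hi, h2]
    · simp [dotProduct_add, hj, h1]

/-- Columns that do not witness a common position of the words of `x` and `y`. -/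
def S {k : ℕ} (x y : W k) : Finset (W k) := univ.filter (fun u => ¬ (x ⬝ᵥ u = 1 ∧ y ⬝ᵥ u = 1))

theorem card_S {k : ℕ} {x y : W k} (hx : x ≠ 0) (hy : y ≠ 0) : 4 * (S x y).card ≤ 3 * 2 ^ k := by
  let f : W k →+ ZMod 2 × ZMod 2 :=
    { toFun := fun u => (x ⬝ᵥ u, y ⬝ᵥ u)
      map_zero' := by simp
      map_add' := fun u w => by simp [dotProduct_add] }
  have hr : ((1, 1) : ZMod 2 × ZMod 2) ∈ Set.range f := by
    obtain ⟨u, h1, h2⟩ := exists_common hx hy
    exact ⟨u, by simp [f, h1, h2]⟩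
  have h1 := card_le_fiber f hr
  have h2 : Fintype.card (ZMod 2 × ZMod 2) = 4 := by simp [ZMod.card]
  have h3 : Fintype.card (W k) = 2 ^ k := by simp [ZMod.card]
  have h4 : (univ.filter (fun g => f g = (1, 1))) = univ.filter (fun u => x ⬝ᵥ u = 1 ∧ y ⬝ᵥ u = 1) := by
    ext u
    simp [f]
  rw [h2, h3, h4] at h1
  have h5 : S x y = univ \ (univ.filter (fun u => x ⬝ᵥ u = 1 ∧ y ⬝ᵥ u = 1)) := by
    ext u
    simp [S]
  have h6 : (S x y).card + (univ.filter (fun u => x ⬝ᵥ u = 1 ∧ y ⬝ᵥ u = 1)).card = 2 ^ k := by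
    rw [h5, card_sdiff_add_card_eq_card (subset_univ _), card_univ, h3]
  omega

/-- Column choices for which the words of `x` and `y` have no common position. -/
def Bad1 {k : ℕ} (n : ℕ) (x y : W k) : Finset (Fin n → W k) := Fintype.piFinset (fun _ => S x y)

theorem card_Bad1 {k n : ℕ} {x y : W k} (hx : x ≠ 0) (hy : y ≠ 0) :
    4 ^ n * (Bad1 n x y).card ≤ 3 ^ n * (2 ^ k) ^ n := by
  rw [Bad1, Fintype.card_piFinset]
  simp only [prod_const, card_univ, Fintype.card_fin]
  rw [← mul_pow, ← mul_pow]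
  exact Nat.pow_le_pow_left (card_S hx hy) n

/-- Column choices for which the columns in `J` add up to zero. -/
def Bad2 {n : ℕ} (k : ℕ) (J : Finset (Fin n)) : Finset (Fin n → W k) :=
  univ.filter (fun a => ∑ j ∈ J, a j = 0)

theorem card_Bad2 {k n : ℕ} {J : Finset (Fin n)} (hJ : J.Nonempty) :
    2 ^ k * (Bad2 k J).card = (2 ^ k) ^ n := by
  let f : (Fin n → W k) →+ W k :=
    { toFun := fun a => ∑ j ∈ J, a j
      map_zero' := by simp
      map_add' := fun a b => by simp [sum_add_distrib] }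
  have hf : Function.Surjective f := by
    intro u
    obtain ⟨j, hj⟩ := hJ
    refine ⟨Pi.single j u, ?_⟩
    have : ∑ i ∈ J, (Pi.single j u : Fin n → W k) i = u := by
      rw [sum_eq_single j]
      · simp
      · intro b _ hb
        simp [hb]
      · intro h
        exact absurd hj h
    exact this
  have h1 := fiber_card f hf 0
  have h3 : Fintype.card (W k) = 2 ^ k := by simp
  have h4 : Fintype.card (Fin n → W k) = (2 ^ k) ^ n := by simp
  rw [h3, h4] at h1
  exact h1

theorem exists_large (t : ℕ) : ∃ k : ℕ, 3 ≤ k ∧ 1 + t * (8 * k) ^ t < 2 ^ k := by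
  have h1 := tendsto_pow_const_div_const_pow_of_one_lt t (one_lt_two (α := ℝ))
  have h2 := h1.const_mul ((t : ℝ) * 8 ^ t)
  have h3 := tendsto_pow_const_div_const_pow_of_one_lt 0 (one_lt_two (α := ℝ))
  have h4 := h2.add h3
  simp only [mul_zero, add_zero] at h4
  have h5 := h4.eventually (gt_mem_nhds (one_pos (α := ℝ)))
  obtain ⟨k, hk, hk3⟩ := (h5.and (Filter.eventually_ge_atTop 3)).exists
  refine ⟨k, hk3, ?_⟩
  have hpos : (0 : ℝ) < 2 ^ k := by positivity
  have h6 : ((t : ℝ) * 8 ^ t * k ^ t + 1) < 2 ^ k := by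
    have : (t : ℝ) * 8 ^ t * ((k : ℝ) ^ t / 2 ^ k) + (k : ℝ) ^ 0 / 2 ^ k =
        ((t : ℝ) * 8 ^ t * k ^ t + 1) / 2 ^ k := by
      field_simp
    rw [this, div_lt_one hpos] at hk
    exact hk
  have h7 : ((1 + t * (8 * k) ^ t : ℕ) : ℝ) < ((2 ^ k : ℕ) : ℝ) := by
    push_cast
    rw [mul_pow]
    linarith
  exact_mod_cast h7

theorem card_small (n t : ℕ) (hn : 0 < n) :
    (univ.filter (fun J : Finset (Fin n) => J.card < t)).card ≤ t * n ^ t := by
  classical
  have h1 : univ.filter (fun J : Finset (Fin n) => J.card < t) ⊆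
      (range t).biUnion (fun i => powersetCard i (univ : Finset (Fin n))) := by
    intro J hJ
    simp only [mem_filter, mem_univ, true_and] at hJ
    simp only [mem_biUnion, mem_range, mem_powersetCard, subset_univ, true_and]
    exact ⟨J.card, hJ, rfl⟩
  refine (card_le_card h1).trans (card_biUnion_le.trans ?_)
  have h2 : ∀ i ∈ range t, (powersetCard i (univ : Finset (Fin n))).card ≤ n ^ t := by
    intro i hi
    rw [mem_range] at hi
    rw [card_powersetCard, card_univ, Fintype.card_fin]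
    exact (Nat.choose_le_pow n i).trans (Nat.pow_le_pow_right hn hi.le)
  refine (sum_le_sum h2).trans ?_
  simp

/-- Existence of an intersecting code with large dual distance. -/
theorem exists_code (t : ℕ) : ∃ k n : ℕ, 3 ≤ k ∧ ∃ a : Fin n → W k,
    (∀ J : Finset (Fin n), J.Nonempty → J.card < t → ∑ j ∈ J, a j ≠ 0) ∧
    (∀ x y : W k, x ≠ 0 → y ≠ 0 → ∃ j, x ⬝ᵥ a j = 1 ∧ y ⬝ᵥ a j = 1) := by
  classical
  obtain ⟨k, hk3, hk⟩ := exists_large t
  refine ⟨k, 8 * k, hk3, ?_⟩
  by_contra hcon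
  push Not at hcon
  let P := univ.filter (fun p : W k × W k => p.1 ≠ 0 ∧ p.2 ≠ 0)
  let Q := univ.filter (fun J : Finset (Fin (8 * k)) => J.Nonempty ∧ J.card < t)
  have hcover : (univ : Finset (Fin (8 * k) → W k)) ⊆
      P.biUnion (fun p => Bad1 (8 * k) p.1 p.2) ∪ Q.biUnion (fun J => Bad2 k J) := by
    intro a _
    rw [mem_union, mem_biUnion, mem_biUnion]
    by_cases h : ∀ J : Finset (Fin (8 * k)), J.Nonempty → J.card < t → ∑ j ∈ J, a j ≠ 0
    · left
      obtain ⟨x, y, hx, hy, hxy⟩ := hcon a h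
      refine ⟨(x, y), by simp [P, hx, hy], ?_⟩
      rw [Bad1, Fintype.mem_piFinset]
      intro j
      simp only [S, mem_filter, mem_univ, true_and]
      rintro ⟨h1, h2⟩
      exact hxy j h1 h2
    · right
      push Not at h
      obtain ⟨J, h1, h2, h3⟩ := h
      exact ⟨J, by simp [Q, h1, h2], by simp [Bad2, h3]⟩
  have h1 := card_le_card hcover
  have h2 : Fintype.card (Fin (8 * k) → W k) = (2 ^ k) ^ (8 * k) := by simp
  rw [card_univ, h2] at h1
  have h3 := h1.trans (card_union_le _ _)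
  have hP : P.card ≤ 2 ^ k * 2 ^ k := by
    have h4 := card_filter_le (univ : Finset (W k × W k)) (fun p => p.1 ≠ 0 ∧ p.2 ≠ 0)
    have h5 : Fintype.card (W k × W k) = 2 ^ k * 2 ^ k := by simp
    rw [card_univ, h5] at h4
    exact h4
  have hQ : Q.card ≤ t * (8 * k) ^ t := by
    refine le_trans (card_le_card ?_) (card_small (8 * k) t (by omega))
    intro J hJ
    simp only [Q, mem_filter, mem_univ, true_and] at hJ ⊢
    exact hJ.2
  set N := (2 ^ k) ^ (8 * k) with hN
  have hNpos : 0 < N := by positivity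
  have hA : 2 ^ k * (P.biUnion (fun p => Bad1 (8 * k) p.1 p.2)).card ≤ N := by
    have h5 : 4 ^ (8 * k) * (P.biUnion (fun p => Bad1 (8 * k) p.1 p.2)).card ≤
        (2 ^ k * 2 ^ k) * (3 ^ (8 * k) * N) := by
      calc 4 ^ (8 * k) * (P.biUnion (fun p => Bad1 (8 * k) p.1 p.2)).card
          ≤ 4 ^ (8 * k) * ∑ p ∈ P, (Bad1 (8 * k) p.1 p.2).card :=
            Nat.mul_le_mul_left _ card_biUnion_le
        _ = ∑ p ∈ P, 4 ^ (8 * k) * (Bad1 (8 * k) p.1 p.2).card := mul_sum _ _ _
        _ ≤ ∑ _p ∈ P, 3 ^ (8 * k) * N := by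
            apply sum_le_sum
            intro p hp
            simp only [P, mem_filter, mem_univ, true_and] at hp
            exact card_Bad1 hp.1 hp.2
        _ = P.card * (3 ^ (8 * k) * N) := by rw [sum_const, smul_eq_mul]
        _ ≤ (2 ^ k * 2 ^ k) * (3 ^ (8 * k) * N) := Nat.mul_le_mul_right _ hP
    have h6 : (2 ^ k * 2 ^ k * 2 ^ k) * 3 ^ (8 * k) ≤ 4 ^ (8 * k) := by
      have h7 : (2 ^ k * 2 ^ k * 2 ^ k) * 3 ^ (8 * k) = (8 * 3 ^ 8) ^ k := by
        rw [pow_mul, ← mul_pow, ← mul_pow, ← mul_pow]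
        norm_num
      rw [h7, pow_mul]
      exact Nat.pow_le_pow_left (by norm_num) k
    have h8 : 4 ^ (8 * k) * (2 ^ k * (P.biUnion (fun p => Bad1 (8 * k) p.1 p.2)).card) ≤
        4 ^ (8 * k) * N := by
      calc 4 ^ (8 * k) * (2 ^ k * (P.biUnion (fun p => Bad1 (8 * k) p.1 p.2)).card)
          = 2 ^ k * (4 ^ (8 * k) * (P.biUnion (fun p => Bad1 (8 * k) p.1 p.2)).card) := by ring
        _ ≤ 2 ^ k * ((2 ^ k * 2 ^ k) * (3 ^ (8 * k) * N)) := Nat.mul_le_mul_left _ h5
        _ = (2 ^ k * 2 ^ k * 2 ^ k) * 3 ^ (8 * k) * N := by ring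
        _ ≤ 4 ^ (8 * k) * N := Nat.mul_le_mul_right _ h6
    exact Nat.le_of_mul_le_mul_left h8 (by positivity)
  have hB : 2 ^ k * (Q.biUnion (fun J => Bad2 k J)).card ≤ t * (8 * k) ^ t * N := by
    calc 2 ^ k * (Q.biUnion (fun J => Bad2 k J)).card
        ≤ 2 ^ k * ∑ J ∈ Q, (Bad2 k J).card := Nat.mul_le_mul_left _ card_biUnion_le
      _ = ∑ J ∈ Q, 2 ^ k * (Bad2 k J).card := mul_sum _ _ _
      _ = ∑ _J ∈ Q, N := by
          apply sum_congr rfl
          intro J hJ
          simp only [Q, mem_filter, mem_univ, true_and] at hJ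
          exact card_Bad2 hJ.1
      _ = Q.card * N := by rw [sum_const, smul_eq_mul]
      _ ≤ t * (8 * k) ^ t * N := Nat.mul_le_mul_right _ hQ
  have h9 : 2 ^ k * N ≤ (1 + t * (8 * k) ^ t) * N := by
    calc 2 ^ k * N ≤ 2 ^ k * ((P.biUnion (fun p => Bad1 (8 * k) p.1 p.2)).card +
          (Q.biUnion (fun J => Bad2 k J)).card) := Nat.mul_le_mul_left _ h3
      _ ≤ N + t * (8 * k) ^ t * N := by
          rw [mul_add]
          exact Nat.add_le_add hA hB
      _ = (1 + t * (8 * k) ^ t) * N := by ring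
  have h10 := Nat.le_of_mul_le_mul_right h9 hNpos
  omega

end Pool.Agent.Helper998.Intersecting
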