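import Mathlib
import Pool.Agent.Helper998.VecMatroid
import Pool.Agent.Helper998.Intersecting

set_option autoImplicit false

namespace Pool.Agent.Helper998.Removable

open Pool.Agent.Helper998.VecMatroid Pool.Agent.Helper998.Intersecting

/-- Every subspace of `F₂ⁿ` is the space of relations of a family of vectors. -/
theorem exists_parity {n : ℕ} (C : Submodule (ZMod 2) (Fin n → ZMod 2)) :
    ∃ (m : ℕ) (v : Fin n → (Fin m → ZMod 2)), ∀ c : Fin n → ZMod 2, IsRel v c ↔ c ∈ C := by
  classical
  let b := Module.finBasis (ZMod 2) ((Fin n → ZMod 2) ⧸ C)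
  let e := b.equivFun
  refine ⟨_, fun i => e (C.mkQ (Pi.single i 1)), fun c => ?_⟩
  have h : ∑ i, c i • e (C.mkQ (Pi.single i 1)) = e (C.mkQ c) := by
    have hc : c = ∑ i, c i • (Pi.single i (1 : ZMod 2) : Fin n → ZMod 2) := by
      funext j
      simp [Finset.sum_apply, Pi.single_apply]
    conv_rhs => rw [hc]
    simp only [map_sum, map_smul]
  rw [IsRel, h]
  simp

theorem support_nonempty_of_ne {ι : Type*} {c : ι → ZMod 2} (h : c ≠ 0) : ∃ i, c i = 1 := by
  by_contra hc
  push Not at hc
  exact h (funext fun i => (zmod_cases (c i)).resolve_right (hc i))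

theorem main (t : ℕ) : ∃ (n m : ℕ) (v : Fin n → (Fin m → ZMod 2)),
    0 < n ∧
    (∀ e f : Fin n, ∃ C, (vecMatroid (ZMod 2) v).IsCircuit C ∧ e ∈ C ∧ f ∈ C) ∧
    (∀ K, (vecMatroid (ZMod 2) v).IsCocircuit K → t ≤ K.ncard) ∧
    (∀ C D, (vecMatroid (ZMod 2) v).IsCircuit C → (vecMatroid (ZMod 2) v).IsCircuit D →
      (C ∩ D).Nonempty) ∧
    (∀ D, (vecMatroid (ZMod 2) v).IsCircuit D → ∃ e f, e ∉ D ∧ f ∉ D ∧ e ≠ f) := by
  classical
  obtain ⟨k, n, hk3, a, hJ, hint⟩ := exists_code (max t 2)
  -- the word map
  let wd : W k →ₗ[ZMod 2] (Fin n → ZMod 2) :=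
    { toFun := fun x j => x ⬝ᵥ a j
      map_add' := fun x y => by funext j; simp [add_dotProduct]
      map_smul' := fun r x => by funext j; simp [smul_dotProduct] }
  have hwd : ∀ x j, wd x j = x ⬝ᵥ a j := fun _ _ => rfl
  obtain ⟨m, v, hv⟩ := exists_parity (LinearMap.range wd)
  have hone : (Pi.single ⟨0, by omega⟩ 1 : W k) ≠ 0 := by
    intro h
    have := congrFun h ⟨0, by omega⟩
    simp at this
  have hn : 0 < n := by
    obtain ⟨j, -⟩ := hint _ _ hone hone
    exact j.pos
  have ha : ∀ j, a j ≠ 0 := by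
    intro j
    have := hJ {j} (Finset.singleton_nonempty j) (by simp)
    simpa using this
  -- all nonzero words meet
  have hmeet : ∀ x y : W k, x ≠ 0 → y ≠ 0 → ∃ j, wd x j = 1 ∧ wd y j = 1 := hint
  have hwne : ∀ x : W k, x ≠ 0 → wd x ≠ 0 := by
    intro x hx h
    obtain ⟨j, h1, -⟩ := hmeet x x hx hx
    rw [h] at h1
    simp at h1
  -- supports of nonzero words are circuits
  have hcirc : ∀ x : W k, x ≠ 0 → (vecMatroid (ZMod 2) v).IsCircuit (Function.support (wd x)) := by
    intro x hx
    apply isCircuit_of_minimal v (hwne x hx) ((hv _).2 ⟨x, rfl⟩)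
    intro d hd hrel hs
    obtain ⟨y, rfl⟩ := (hv d).1 hrel
    have hy : y ≠ 0 := by
      rintro rfl
      exact hd (map_zero _)
    by_cases hxy : x + y = 0
    · have : x = y := by
        have h2 : y + y = 0 := by
          funext i
          rcases zmod_cases (y i) with h | h <;> simp [h]
          decide
        have h3 : x + y + y = y := by rw [hxy, zero_add]
        rw [add_assoc, h2, add_zero] at h3
        exact h3
      rw [this]
    · exfalso
      obtain ⟨j, h1, h2⟩ := hmeet (x + y) y hxy hy
      rw [map_add, Pi.add_apply, h2] at h1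
      have h3 : wd x j = 0 := by
        rcases zmod_cases (wd x j) with h | h
        · exact h
        · rw [h] at h1
          exact absurd h1 (by decide)
      have h4 : j ∈ Function.support (wd x) := hs (by simp [h2])
      exact h4 h3
  have hcirc' : ∀ C, (vecMatroid (ZMod 2) v).IsCircuit C → ∃ x : W k, x ≠ 0 ∧
      Function.support (wd x) = C := by
    intro C hC
    obtain ⟨c, hc, hrel, rfl⟩ := exists_of_isCircuit v hC
    obtain ⟨x, rfl⟩ := (hv c).1 hrel
    refine ⟨x, ?_, rfl⟩
    rintro rfl
    exact hc (map_zero _)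
  refine ⟨n, m, v, hn, ?_, ?_, ?_, ?_⟩
  · intro e f
    obtain ⟨x, h1, h2⟩ := exists_common (ha e) (ha f)
    have hx : x ≠ 0 := by
      rintro rfl
      simp at h1
    refine ⟨_, hcirc x hx, ?_, ?_⟩
    · rw [Function.mem_support, hwd, dotProduct_comm, h1]
      decide
    · rw [Function.mem_support, hwd, dotProduct_comm, h2]
      decide
  · intro K hK
    obtain ⟨f, ⟨i, hi⟩, rfl⟩ := exists_of_isCocircuit v hK
    by_contra hlt
    push Not at hlt
    let J : Finset (Fin n) := Finset.univ.filter (fun i => f (v i) ≠ 0)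
    have hJK : {i | f (v i) ≠ 0} = (J : Set (Fin n)) := by
      ext i
      simp [J]
    rw [hJK, Set.ncard_coe_finset] at hlt
    refine hJ J ⟨i, by simpa [J] using hi⟩ (lt_of_lt_of_le hlt (le_max_left _ _)) ?_
    -- the sum of the columns in `J` is orthogonal to everything
    have h1 : ∀ x : W k, x ⬝ᵥ (∑ j ∈ J, a j) = 0 := by
      intro x
      have hrel : IsRel v (wd x) := (hv _).2 ⟨x, rfl⟩
      have h2 : ∑ j, wd x j * f (v j) = 0 := by
        have h3 := congrArg f hrel
        rw [map_zero] at h3
        simpa [map_sum] using h3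
      rw [dotProduct_sum, Finset.sum_filter]
      refine Eq.trans (Finset.sum_congr rfl fun j _ => ?_) h2
      rw [hwd]
      rcases zmod_cases (f (v j)) with h | h
      · simp [h]
      · simp [h]
    funext i
    have := h1 (Pi.single i 1)
    simpa using this
  · intro C D hC hD
    obtain ⟨x, hx, rfl⟩ := hcirc' C hC
    obtain ⟨y, hy, rfl⟩ := hcirc' D hD
    obtain ⟨j, h1, h2⟩ := hmeet x y hx hy
    exact ⟨j, by simp [h1], by simp [h2]⟩
  · intro D hD
    obtain ⟨x, hx, rfl⟩ := hcirc' D hD
    have hcard : Fintype.card (W k) = 2 ^ k := by simp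
    have hk8 : 8 ≤ 2 ^ k := by
      calc 8 = 2 ^ 3 := by norm_num
        _ ≤ 2 ^ k := Nat.pow_le_pow_right (by norm_num) hk3
    -- a zero position of `wd x` where `wd y` is one
    have hz : ∀ y : W k, y ≠ 0 → x + y ≠ 0 → ∃ j, wd x j = 0 ∧ wd y j = 1 := by
      intro y hy hxy
      obtain ⟨j, h1, h2⟩ := hmeet (x + y) y hxy hy
      rw [map_add, Pi.add_apply, h2] at h1
      refine ⟨j, ?_, h2⟩
      rcases zmod_cases (wd x j) with h | h
      · exact h
      · rw [h] at h1
        exact absurd h1 (by decide)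
    obtain ⟨y, hy⟩ : ∃ y : W k, y ∉ ({0, x} : Finset (W k)) := by
      by_contra hc
      push Not at hc
      have h1 : (Finset.univ : Finset (W k)) ⊆ {0, x} := fun y _ => hc y
      have h2 := Finset.card_le_card h1
      rw [Finset.card_univ, hcard] at h2
      have h3 : ({0, x} : Finset (W k)).card ≤ 2 := Finset.card_le_two
      omega
    obtain ⟨z, hz'⟩ : ∃ z : W k, z ∉ ({0, x, y, x + y} : Finset (W k)) := by
      by_contra hc
      push Not at hc
      have h1 : (Finset.univ : Finset (W k)) ⊆ {0, x, y, x + y} := fun y _ => hc y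
      have h2 := Finset.card_le_card h1
      rw [Finset.card_univ, hcard] at h2
      have h3 : ({0, x, y, x + y} : Finset (W k)).card ≤ 4 := Finset.card_le_four
      omega
    simp only [Finset.mem_insert, Finset.mem_singleton, not_or] at hy hz'
    have hself : ∀ u : W k, u + u = 0 := by
      intro u
      funext i
      rcases zmod_cases (u i) with h | h <;> simp [h]
      decide
    have hadd : ∀ u w : W k, u + w = 0 → u = w := by
      intro u w h
      have h3 : u + w + w = w := by rw [h, zero_add]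
      rw [add_assoc, hself, add_zero] at h3
      exact h3
    obtain ⟨i, hi0, hi1⟩ := hz y hy.1 (fun h => hy.2 (hadd _ _ h).symm)
    by_cases hzi : wd z i = 1
    · -- use y + z
      have hyz : y + z ≠ 0 := fun h => hz'.2.2.1 (hadd _ _ h).symm
      have hxyz : x + (y + z) ≠ 0 := by
        intro h
        rw [← add_assoc] at h
        exact hz'.2.2.2 (hadd _ _ h).symm
      obtain ⟨j, hj0, hj1⟩ := hz (y + z) hyz hxyz
      refine ⟨i, j, by simp [hi0], by simp [hj0], ?_⟩
      rintro rfl
      rw [map_add, Pi.add_apply, hi1, hzi] at hj1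
      exact absurd hj1 (by decide)
    · obtain ⟨j, hj0, hj1⟩ := hz z hz'.1 (fun h => hz'.2.1 (hadd _ _ h).symm)
      refine ⟨i, j, by simp [hi0], by simp [hj0], ?_⟩
      rintro rfl
      exact hzi hj1

/-- In a binary vector matroid circuits and cocircuits meet in an even number of elements. -/
theorem even_inter {ι : Type*} [Fintype ι] {m : ℕ} (v : ι → (Fin m → ZMod 2)) {C K : Set ι}
    (hC : (vecMatroid (ZMod 2) v).IsCircuit C) (hK : (vecMatroid (ZMod 2) v).IsCocircuit K) :
    Even (C ∩ K).ncard := by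
  classical
  obtain ⟨c, hc, hrel, rfl⟩ := exists_of_isCircuit v hC
  obtain ⟨f, hf, rfl⟩ := exists_of_isCocircuit v hK
  have h1 := congrArg f hrel
  rw [map_zero, map_sum] at h1
  simp only [map_smul, smul_eq_mul] at h1
  have h2 : Function.support c ∩ {i | f (v i) ≠ 0} =
      ((Finset.univ.filter (fun i => c i * f (v i) = 1) : Finset ι) : Set ι) := by
    ext i
    simp only [Set.mem_inter_iff, Function.mem_support, Set.mem_ofPred_eq, Finset.coe_filter,
      Finset.mem_univ, true_and]
    generalize c i = x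
    generalize f (v i) = y
    revert x y
    decide
  rw [h2, Set.ncard_coe_finset, ← ZMod.natCast_eq_zero_iff_even, Finset.card_filter]
  push_cast
  refine Eq.trans (Finset.sum_congr rfl fun i _ => ?_) h1
  rcases zmod_cases (c i * f (v i)) with h | h
  · simp [h]
  · simp [h]

end Pool.Agent.Helper998.Removable
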