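import Mathlib
import Pool.Agent.Helper998.VecMatroid
import Pool.Agent.Helper998.DualRep

set_option autoImplicit false

namespace Pool.Agent.Helper998.Spread

open Set Pool.Agent.Helper998.VecMatroid Pool.Agent.Helper998.DualRep

abbrev X := Fin 6 → ZMod 2
abbrev V := X × X
abbrev L := Fin 4 × {x : X // x ≠ 0}

def eps : X := ![1, 0, 0, 0, 0, 0]

theorem eps_ne : eps ≠ 0 := by decide

theorem two_x (x : X) : x + x = 0 := by
  ext i
  simp only [Pi.add_apply, Pi.zero_apply]
  exact CharTwo.add_self_eq_zero (x i)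

theorem eq_of_add {x y : X} (h : x + y = 0) : x = y := by
  have : x + y + y = 0 + y := by rw [h]
  rwa [add_assoc, two_x, add_zero, zero_add] at this

/-- The four subspaces, parametrised. -/
def j (B : X →ₗ[ZMod 2] X) : Fin 4 → X →ₗ[ZMod 2] V
  | 0 => LinearMap.inl (ZMod 2) X X
  | 1 => LinearMap.inr (ZMod 2) X X
  | 2 => LinearMap.prod LinearMap.id LinearMap.id
  | 3 => LinearMap.prod B LinearMap.id

variable {B : X →ₗ[ZMod 2] X}

theorem j0 (x : X) : j B 0 x = (x, 0) := rfl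
theorem j1 (x : X) : j B 1 x = (0, x) := rfl
theorem j2 (x : X) : j B 2 x = (x, x) := rfl
theorem j3 (x : X) : j B 3 x = (B x, x) := rfl

structure Good (B : X →ₗ[ZMod 2] X) : Prop where
  inj : Function.Injective B
  tr : ∀ x : X, x ≠ 0 → ∃ k : ℕ, (B ^ k) x = eps
  ne : B eps ≠ eps

theorem j_inj (a : Fin 4) : Function.Injective (j B a) := by
  intro x y h
  fin_cases a
  · exact congrArg Prod.fst h
  · exact congrArg Prod.snd h
  · exact congrArg Prod.snd h
  · exact congrArg Prod.snd h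

theorem pow_comm (k : ℕ) (x : X) : (B ^ k) (B x) = B ((B ^ k) x) := by
  have h1 : (B ^ k) (B x) = (B ^ k * B) x := rfl
  have h2 : B ((B ^ k) x) = (B * B ^ k) x := rfl
  rw [h1, h2, ← pow_succ, ← pow_succ']

theorem Good.C_inj (h : Good B) {x : X} (hx : x + B x = 0) : x = 0 := by
  by_contra hne
  obtain ⟨k, hk⟩ := h.tr x hne
  apply h.ne
  rw [← hk, ← pow_comm, ← eq_of_add hx]

theorem Good.B_ne (h : Good B) {x : X} (hx : x ≠ 0) : B x ≠ 0 := by
  intro h0
  apply hx
  apply h.inj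
  rw [h0, map_zero]

theorem Good.C_ne (h : Good B) {x : X} (hx : x ≠ 0) : x + B x ≠ 0 := fun h0 => hx (h.C_inj h0)

theorem j_disj (h : Good B) {a b : Fin 4} (hab : a ≠ b) {x y : X} (he : j B a x = j B b y) :
    x = 0 ∧ y = 0 := by
  have key : ∀ (a b : Fin 4) (x y : X), a < b → j B a x = j B b y → x = 0 ∧ y = 0 := by
    intro a b x y hlt he
    have h1 := congrArg Prod.fst he
    have h2 := congrArg Prod.snd he
    fin_cases a <;> fin_cases b <;> simp at hlt <;>
      simp only [j0, j1, j2, j3, Fin.zero_eta, Fin.mk_one, Fin.reduceFinMk] at h1 h2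
    · exact ⟨h1, h2.symm⟩
    · subst h1; exact ⟨h2.symm, h2.symm⟩
    · rw [← h2, map_zero] at h1; exact ⟨h1, h2.symm⟩
    · subst h2; exact ⟨h1.symm, h1.symm⟩
    · subst h2
      have : x = 0 := by
        apply h.inj
        rw [← h1, map_zero]
      exact ⟨this, this⟩
    · subst h2
      have : x = 0 := by
        apply h.C_inj
        rw [← h1, two_x]
      exact ⟨this, this⟩
  rcases lt_or_gt_of_ne hab with hlt | hgt
  · exact key a b x y hlt he
  · exact (key b a y x hgt he.symm).symm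

/-- The family of vectors. -/
def v (B : X →ₗ[ZMod 2] X) (i : L) : V := j B i.1 i.2.1

theorem v_ne (i : L) : v B i ≠ 0 := by
  intro h
  apply i.2.2
  apply j_inj (B := B) i.1
  rw [map_zero]
  exact h

theorem v_inj (h : Good B) : Function.Injective (v B) := by
  rintro ⟨a, x, hx⟩ ⟨b, y, hy⟩ he
  change j B a x = j B b y at he
  by_cases hab : a = b
  · subst hab
    have := j_inj a he
    subst this
    rfl
  · exact absurd (j_disj h hab he).1 hx

theorem v_span : Submodule.span (ZMod 2) (Set.range (v B)) = ⊤ := by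
  rw [eq_top_iff]
  rintro ⟨x, y⟩ -
  have hx : ((x, 0) : V) ∈ Submodule.span (ZMod 2) (Set.range (v B)) := by
    by_cases h : x = 0
    · subst h
      exact Submodule.zero_mem _
    · exact Submodule.subset_span ⟨(0, ⟨x, h⟩), rfl⟩
  have hy : ((0, y) : V) ∈ Submodule.span (ZMod 2) (Set.range (v B)) := by
    by_cases h : y = 0
    · subst h
      exact Submodule.zero_mem _
    · exact Submodule.subset_span ⟨(1, ⟨y, h⟩), rfl⟩
  have := Submodule.add_mem _ hx hy
  simpa using this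

/-- Linear bijections preserving the family. -/
def Pres (B : X →ₗ[ZMod 2] X) (G : V ≃ₗ[ZMod 2] V) : Prop :=
  ∀ a x, ∃ a' x', G (j B a x) = j B a' x'

theorem Pres.trans {G H : V ≃ₗ[ZMod 2] V} (hG : Pres B G) (hH : Pres B H) : Pres B (G.trans H) := by
  intro a x
  obtain ⟨a', x', h1⟩ := hG a x
  obtain ⟨a'', x'', h2⟩ := hH a' x'
  exact ⟨a'', x'', by rw [LinearEquiv.trans_apply, h1, h2]⟩

theorem Pres.perm (h : Good B) {G : V ≃ₗ[ZMod 2] V} (hG : Pres B G) :
    ∃ g : L ≃ L, ∀ i, G (v B i) = v B (g i) := by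
  have h1 : ∀ i : L, ∃ i' : L, G (v B i) = v B i' := by
    rintro ⟨a, x, hx⟩
    obtain ⟨a', x', he⟩ := hG a x
    have hx' : x' ≠ 0 := by
      rintro rfl
      rw [map_zero] at he
      have h2 : j B a x = 0 := by
        apply G.injective
        rw [he, map_zero]
      exact v_ne (B := B) (a, ⟨x, hx⟩) h2
    exact ⟨(a', ⟨x', hx'⟩), he⟩
  choose g hg using h1
  have hinj : Function.Injective g := by
    intro i i' hii
    apply v_inj h
    apply G.injective
    rw [hg, hg, hii]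
  exact ⟨Equiv.ofBijective g (Finite.injective_iff_bijective.1 hinj), hg⟩

theorem pow_inj (h : Good B) (k : ℕ) : Function.Injective (B ^ k) := by
  have : (⇑(B ^ k) : X → X) = (⇑B)^[k] := by
    funext x
    exact Module.End.pow_apply B k x
  rw [this]
  exact h.inj.iterate k

noncomputable def scal (h : Good B) (k : ℕ) : V ≃ₗ[ZMod 2] V :=
  LinearEquiv.prodCongr (LinearEquiv.ofInjectiveEndo (B ^ k) (pow_inj h k))
    (LinearEquiv.ofInjectiveEndo (B ^ k) (pow_inj h k))

theorem scal_apply (h : Good B) (k : ℕ) (x y : X) : scal h k (x, y) = ((B ^ k) x, (B ^ k) y) := by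
  simp [scal]

theorem scal_pres (h : Good B) (k : ℕ) : Pres B (scal h k) := by
  intro a x
  refine ⟨a, (B ^ k) x, ?_⟩
  fin_cases a
  · change scal h k (x, 0) = _
    rw [scal_apply, map_zero]
    rfl
  · change scal h k (0, x) = _
    rw [scal_apply, map_zero]
    rfl
  · change scal h k (x, x) = _
    rw [scal_apply]
    rfl
  · change scal h k (B x, x) = _
    rw [scal_apply, pow_comm]
    rfl

noncomputable def T (h : Good B) : V ≃ₗ[ZMod 2] V :=
  (LinearEquiv.prodComm (ZMod 2) X X).trans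
    (LinearEquiv.prodCongr (LinearEquiv.ofInjectiveEndo B h.inj) (LinearEquiv.refl _ _))

theorem T_apply (h : Good B) (x y : X) : T h (x, y) = (B y, x) := by
  simp [T]

theorem T_pres (h : Good B) : Pres B (T h) := by
  intro a x
  fin_cases a
  · exact ⟨1, x, by change T h (x, 0) = (0, x); rw [T_apply, map_zero]⟩
  · exact ⟨0, B x, by change T h (0, x) = (B x, 0); rw [T_apply]⟩
  · exact ⟨3, x, by change T h (x, x) = (B x, x); rw [T_apply]⟩
  · exact ⟨2, B x, by change T h (B x, x) = (B x, B x); rw [T_apply]⟩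

def Ulin (B : X →ₗ[ZMod 2] X) : V →ₗ[ZMod 2] V :=
  LinearMap.prod (LinearMap.fst (ZMod 2) X X + B ∘ₗ LinearMap.snd (ZMod 2) X X)
    (LinearMap.fst (ZMod 2) X X + LinearMap.snd (ZMod 2) X X)

theorem Ulin_apply (x y : X) : Ulin B (x, y) = (x + B y, x + y) := rfl

theorem Ulin_inj (h : Good B) : Function.Injective (Ulin B) := by
  rw [← LinearMap.ker_eq_bot, LinearMap.ker_eq_bot']
  rintro ⟨x, y⟩ he
  rw [Ulin_apply] at he
  have h1 := congrArg Prod.fst he
  have h2 := congrArg Prod.snd he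
  simp only [Prod.fst_zero, Prod.snd_zero] at h1 h2
  have h3 := eq_of_add h2
  subst h3
  have := h.C_inj h1
  subst this
  rfl

noncomputable def U (h : Good B) : V ≃ₗ[ZMod 2] V :=
  LinearEquiv.ofInjectiveEndo (Ulin B) (Ulin_inj h)

theorem U_apply (h : Good B) (x y : X) : U h (x, y) = (x + B y, x + y) := rfl

theorem U_pres (h : Good B) : Pres B (U h) := by
  intro a x
  fin_cases a
  · exact ⟨2, x, by change U h (x, 0) = (x, x); rw [U_apply, map_zero, add_zero]⟩
  · exact ⟨3, x, by change U h (0, x) = (B x, x); rw [U_apply, zero_add, zero_add]⟩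
  · exact ⟨0, x + B x, by change U h (x, x) = (x + B x, 0); rw [U_apply, two_x]⟩
  · exact ⟨1, B x + x, by change U h (B x, x) = (0, B x + x); rw [U_apply, two_x]⟩

def e0 : L := (0, ⟨eps, eps_ne⟩)

theorem trans0 (h : Good B) {x : X} (hx : x ≠ 0) :
    ∃ G : V ≃ₗ[ZMod 2] V, Pres B G ∧ G (j B 0 x) = j B 0 eps := by
  obtain ⟨k, hk⟩ := h.tr x hx
  refine ⟨scal h k, scal_pres h k, ?_⟩
  rw [j0, j0, scal_apply, map_zero, hk]

theorem trans1 (h : Good B) {x : X} (hx : x ≠ 0) :
    ∃ G : V ≃ₗ[ZMod 2] V, Pres B G ∧ G (j B 1 x) = j B 0 eps := by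
  obtain ⟨G, hG, hx'⟩ := trans0 h (h.B_ne hx)
  refine ⟨(T h).trans G, (T_pres h).trans hG, ?_⟩
  rw [LinearEquiv.trans_apply, j1, T_apply, ← j0 (B := B), hx']

theorem trans2 (h : Good B) {x : X} (hx : x ≠ 0) :
    ∃ G : V ≃ₗ[ZMod 2] V, Pres B G ∧ G (j B 2 x) = j B 0 eps := by
  obtain ⟨G, hG, hx'⟩ := trans0 h (h.C_ne hx)
  refine ⟨(U h).trans G, (U_pres h).trans hG, ?_⟩
  rw [LinearEquiv.trans_apply, j2, U_apply, two_x, ← j0 (B := B), hx']

theorem trans3 (h : Good B) {x : X} (hx : x ≠ 0) :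
    ∃ G : V ≃ₗ[ZMod 2] V, Pres B G ∧ G (j B 3 x) = j B 0 eps := by
  obtain ⟨G, hG, hx'⟩ := trans1 h (x := B x + x) (by rw [add_comm]; exact h.C_ne hx)
  refine ⟨(U h).trans G, (U_pres h).trans hG, ?_⟩
  rw [LinearEquiv.trans_apply, j3, U_apply, two_x, ← j1 (B := B), hx']

theorem transL (h : Good B) (i : L) :
    ∃ (G : V ≃ₗ[ZMod 2] V) (g : L ≃ L), (∀ i, G (v B i) = v B (g i)) ∧ g i = e0 := by
  obtain ⟨a, x, hx⟩ := i
  have h1 : ∃ G : V ≃ₗ[ZMod 2] V, Pres B G ∧ G (j B a x) = j B 0 eps := by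
    fin_cases a
    · exact trans0 h hx
    · exact trans1 h hx
    · exact trans2 h hx
    · exact trans3 h hx
  obtain ⟨G, hG, hGx⟩ := h1
  obtain ⟨g, hg⟩ := hG.perm h
  refine ⟨G, g, hg, ?_⟩
  apply v_inj h
  rw [← hg]
  exact hGx

end Pool.Agent.Helper998.Spread
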