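import Mathlib
import Pool.Agent.Helper998.SpreadIso

set_option autoImplicit false

namespace Pool.Agent.Helper998.Spread

open Set Pool.Agent.Helper998.VecMatroid Pool.Agent.Helper998.DualRep

theorem card_X : Fintype.card X = 64 := by
  simp [ZMod.card]

/-- The image of each of the four subspaces is one of the four subspaces. -/
theorem cls {B B' : X →ₗ[ZMod 2] X} (h' : Good B') (G : V ≃ₗ[ZMod 2] V)
    (hG : ∀ a x, ∃ a' x', G (j B a x) = j B' a' x') (a : Fin 4) :
    ∃ b, ∀ x, ∃ y, G (j B a x) = j B' b y := by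
  classical
  by_contra hcon
  push Not at hcon
  choose x0 hx0 using hcon
  choose cl prm hcl using hG a
  let Y : Fin 4 → Finset X := fun b => Finset.univ.filter (fun x => ∃ y, G (j B a x) = j B' b y)
  have hY : ∀ b, (Y b).card ≤ 3 := by
    intro b
    have h3 : (Finset.univ.erase b : Finset (Fin 4)).card = 3 := by
      rw [Finset.card_erase_of_mem (Finset.mem_univ _)]
      rfl
    rw [← h3]
    apply Finset.card_le_card_of_injOn (fun x => cl (x0 b + x))
    · intro x hx
      simp only [Y, Finset.coe_filter, Finset.mem_univ, true_and, Set.mem_ofPred_eq] at hx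
      obtain ⟨y, hy⟩ := hx
      simp only [Finset.coe_erase, Finset.coe_univ, Set.mem_sdiff, Set.mem_univ,
        Set.mem_singleton_iff, true_and]
      intro hb
      have h1 := hcl (x0 b + x)
      rw [hb, map_add, map_add, hy] at h1
      apply hx0 b (prm (x0 b + x) + y)
      rw [map_add, ← h1, add_assoc, two_v, add_zero]
    · intro x hx x' hx' hxx
      simp only [Y, Finset.coe_filter, Finset.mem_univ, true_and, Set.mem_ofPred_eq] at hx hx'
      obtain ⟨y, hy⟩ := hx
      obtain ⟨y', hy'⟩ := hx'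
      simp only at hxx
      have h1 := hcl (x0 b + x)
      have h2 := hcl (x0 b + x')
      rw [← hxx] at h2
      have hne : cl (x0 b + x) ≠ b := by
        intro hb
        rw [hb, map_add, map_add, hy] at h1
        apply hx0 b (prm (x0 b + x) + y)
        rw [map_add, ← h1, add_assoc, two_v, add_zero]
      have h3 : G (j B a (x + x')) = j B' (cl (x0 b + x)) (prm (x0 b + x) + prm (x0 b + x')) := by
        rw [map_add (j B' _), ← h1, ← h2, ← map_add G, ← map_add (j B a)]
        congr 2
        rw [add_add_add_comm, two_x, zero_add]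
      have h4 : G (j B a (x + x')) = j B' b (y + y') := by
        rw [map_add, map_add, hy, hy', map_add]
      rw [h3] at h4
      have h5 := (j_disj h' hne h4).1
      rw [h5, map_zero] at h3
      have h6 : j B a (x + x') = 0 := by
        apply G.injective
        rw [h3, map_zero]
      have h7 : x + x' = 0 := by
        apply j_inj (B := B) a
        rw [h6, map_zero]
      exact eq_of_add h7
  have hcov : (Finset.univ : Finset X) ⊆ Finset.univ.biUnion Y := by
    intro x _
    rw [Finset.mem_biUnion]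
    exact ⟨cl x, Finset.mem_univ _, by simp only [Y, Finset.mem_filter, Finset.mem_univ, true_and]; exact ⟨_, hcl x⟩⟩
  have hc := Finset.card_le_card hcov
  have hc2 : (Finset.univ.biUnion Y).card ≤ ∑ b : Fin 4, (Y b).card := Finset.card_biUnion_le
  have hc3 : ∑ b : Fin 4, (Y b).card ≤ ∑ b : Fin 4, 3 := Finset.sum_le_sum (fun b _ => hY b)
  rw [Finset.card_univ, card_X] at hc
  simp at hc3
  omega

theorem pow_rel {S T C : Module.End (ZMod 2) X} (hST : Commute S T) (p : X → X)
    (h : ∀ y, S (p (C y)) = T (p y)) (n : ℕ) : ∀ y, (S ^ n) (p ((C ^ n) y)) = (T ^ n) (p y) := by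
  induction n with
  | zero => intro y; simp
  | succ n ih =>
    intro y
    have h1 : (C ^ (n + 1)) y = C ((C ^ n) y) := by
      rw [pow_succ']
      rfl
    have h2 : ∀ z, (S ^ (n + 1)) z = (S ^ n) (S z) := by
      intro z
      rw [pow_succ]
      rfl
    have h3 : ∀ z, (S ^ n) (T z) = T ((S ^ n) z) := by
      intro z
      have := (hST.pow_left n)
      have := congrArg (fun f : Module.End (ZMod 2) X => f z) this.eq
      exact this
    have h4 : (T ^ (n + 1)) (p y) = T ((T ^ n) (p y)) := by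
      rw [pow_succ']
      rfl
    rw [h1, h2, h, h3, ih, h4]

/-- The core of the non-isomorphism. -/
theorem no_map {B B' : X →ₗ[ZMod 2] X} (h : Good B) (h' : Good B')
    (hC : ((1 + B : Module.End (ZMod 2) X) ^ 9) eps = eps)
    (h1 : ((B' : Module.End (ZMod 2) X) ^ 9) eps ≠ eps)
    (h2 : ((1 + B' : Module.End (ZMod 2) X) ^ 9) eps ≠ eps)
    (h3 : ((1 + B' : Module.End (ZMod 2) X) ^ 9) eps ≠ ((B' : Module.End (ZMod 2) X) ^ 9) eps)
    (G : V ≃ₗ[ZMod 2] V) (hG : ∀ a x, ∃ a' x', G (j B a x) = j B' a' x')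
    (hG0 : G (j B 0 eps) = j B' 0 eps) : False := by
  choose σ hσ using cls h' G hG
  choose A hA using hσ
  have hAinj : ∀ a, Function.Injective (A a) := by
    intro a x y hxy
    apply j_inj (B := B) a
    apply G.injective
    rw [hA, hA, hxy]
  have hσinj : ∀ a a', a ≠ a' → σ a ≠ σ a' := by
    intro a a' hne he
    obtain ⟨x, hx⟩ := (Finite.injective_iff_surjective.1 (hAinj a)) (A a' eps)
    have h5 : G (j B a x) = G (j B a' eps) := by
      rw [hA, hA, hx, he]
    exact eps_ne (j_disj h hne (G.injective h5)).2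
  have hσ0 : σ 0 = 0 := by
    by_contra hne
    have h5 : j B' (σ 0) (A 0 eps) = j B' 0 eps := by
      rw [← hA, hG0]
    exact eps_ne (j_disj h' hne h5).2
  have hp : A 0 eps = eps := by
    have h5 : j B' (σ 0) (A 0 eps) = j B' 0 eps := by
      rw [← hA, hG0]
    rw [hσ0] at h5
    exact j_inj 0 h5
  have hA0 : ∀ x, G (j B 0 x) = j B' 0 (A 0 x) := by
    intro x
    rw [hA, hσ0]
  have E1 : ∀ y, j B' 0 (A 0 (y + B y)) + j B' (σ 2) (A 2 y) = j B' (σ 3) (A 3 y) := by
    intro y
    rw [← hA 2, ← hA 3, ← hA0, ← map_add]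
    congr 1
    change ((y + B y, 0) : V) + (y, y) = (B y, y)
    rw [Prod.mk_add_mk, zero_add, add_comm y (B y), add_assoc, two_x, add_zero]
  have E2 : ∀ y, j B' 0 (A 0 y) + j B' (σ 2) (A 2 y) = j B' (σ 1) (A 1 y) := by
    intro y
    rw [← hA 2, ← hA 1, ← hA0, ← map_add]
    congr 1
    change ((y, 0) : V) + (y, y) = (0, y)
    rw [Prod.mk_add_mk, zero_add, two_x]
  have hcase : ∀ s1 s2 s3 : Fin 4, s1 ≠ 0 → s2 ≠ 0 → s3 ≠ 0 → s1 ≠ s2 → s1 ≠ s3 → s2 ≠ s3 →
      (s1 = 1 ∧ s2 = 2 ∧ s3 = 3) ∨ (s1 = 1 ∧ s2 = 3 ∧ s3 = 2) ∨ (s1 = 2 ∧ s2 = 1 ∧ s3 = 3) ∨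
      (s1 = 2 ∧ s2 = 3 ∧ s3 = 1) ∨ (s1 = 3 ∧ s2 = 1 ∧ s3 = 2) ∨ (s1 = 3 ∧ s2 = 2 ∧ s3 = 1) := by
    intro s1 s2 s3
    fin_cases s1 <;> fin_cases s2 <;> fin_cases s3 <;> simp
  have hn : ∀ a, a ≠ 0 → σ a ≠ 0 := by
    intro a ha
    rw [← hσ0]
    exact hσinj a 0 ha
  have hC1 : ∀ y, (1 + B : Module.End (ZMod 2) X) y = y + B y := fun y => rfl
  have hC2 : ∀ y, (1 + B' : Module.End (ZMod 2) X) y = y + B' y := fun y => rfl
  have fin1 : ∀ S T : Module.End (ZMod 2) X, Commute S T →
      (∀ y, S (A 0 ((1 + B : Module.End (ZMod 2) X) y)) = T (A 0 y)) →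
      (S ^ 9) eps = (T ^ 9) eps := by
    intro S T hST hrel
    have := pow_rel hST (A 0) hrel 9 eps
    rwa [hC, hp] at this
  have hcomm : Commute (1 + B' : Module.End (ZMod 2) X) B' :=
    (Commute.one_left _).add_left (Commute.refl _)
  have hone : ∀ y, (1 : Module.End (ZMod 2) X) y = y := fun y => rfl
  have half : ∀ x y z : X, x + y = z → x = y + z := by
    intro x y z hxyz
    rw [← hxyz, add_comm x y, ← add_assoc, two_x, zero_add]
  rcases hcase (σ 1) (σ 2) (σ 3) (hn 1 (by decide)) (hn 2 (by decide)) (hn 3 (by decide))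
    (hσinj 1 2 (by decide)) (hσinj 1 3 (by decide)) (hσinj 2 3 (by decide)) with
    ⟨a1, a2, a3⟩ | ⟨a1, a2, a3⟩ | ⟨a1, a2, a3⟩ | ⟨a1, a2, a3⟩ | ⟨a1, a2, a3⟩ | ⟨a1, a2, a3⟩
  · -- identity : A (C y) = C' (A y)
    apply h2
    have := fin1 1 (1 + B') (Commute.one_left _) (by
      intro y
      have e1 := E1 y
      have e2 := E2 y
      rw [a2, a3] at e1
      rw [a1, a2] at e2
      rw [hC1, hone, hC2]
      have e11 : A 0 (y + B y) + A 2 y = B' (A 3 y) := congrArg Prod.fst e1
      have e12 : 0 + A 2 y = A 3 y := congrArg Prod.snd e1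
      have e21 : A 0 y + A 2 y = 0 := congrArg Prod.fst e2
      have e3 := eq_of_add e21
      rw [zero_add] at e12
      rw [← e12, ← e3] at e11
      exact half _ _ _ e11)
    rw [one_pow] at this
    exact this.symm
  · -- (1,3,2): B' A C = C' A
    apply h3
    have := fin1 B' (1 + B') hcomm.symm (by
      intro y
      have e1 := E1 y
      have e2 := E2 y
      rw [a2, a3] at e1
      rw [a1, a2] at e2
      rw [hC1, hC2]
      have e11 : A 0 (y + B y) + B' (A 2 y) = A 3 y := congrArg Prod.fst e1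
      have e12 : 0 + A 2 y = A 3 y := congrArg Prod.snd e1
      have e21 : A 0 y + B' (A 2 y) = 0 := congrArg Prod.fst e2
      have e3 := eq_of_add e21
      rw [zero_add] at e12
      rw [← e12] at e11
      have e4 := half _ _ _ e11
      rw [e4, map_add, ← e3, add_comm])
    exact this.symm
  · -- (2,1,3): A C = B' A
    apply h1
    have := fin1 1 B' (Commute.one_left _) (by
      intro y
      have e1 := E1 y
      have e2 := E2 y
      rw [a2, a3] at e1
      rw [a1, a2] at e2
      rw [hC1, hone]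
      have e11 : A 0 (y + B y) + 0 = B' (A 3 y) := congrArg Prod.fst e1
      have e12 : 0 + A 2 y = A 3 y := congrArg Prod.snd e1
      have e21 : A 0 y + 0 = A 1 y := congrArg Prod.fst e2
      have e22 : 0 + A 2 y = A 1 y := congrArg Prod.snd e2
      rw [zero_add] at e12 e22
      rw [add_zero] at e11 e21
      rw [e11, ← e12, e22, e21])
    rw [one_pow] at this
    exact this.symm
  · -- (2,3,1): C' A C = B' A
    apply h3
    exact fin1 (1 + B') B' hcomm (by
      intro y
      have e1 := E1 y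
      have e2 := E2 y
      rw [a2, a3] at e1
      rw [a1, a2] at e2
      rw [hC1, hC2]
      have e11 : A 0 (y + B y) + B' (A 2 y) = 0 := congrArg Prod.fst e1
      have e21 : A 0 y + B' (A 2 y) = A 1 y := congrArg Prod.fst e2
      have e22 : 0 + A 2 y = A 1 y := congrArg Prod.snd e2
      rw [zero_add] at e22
      have e3 := eq_of_add e11
      rw [← e22] at e21
      have e4 := half _ _ _ e21
      rw [e3, e4, map_add, add_comm])
  · -- (3,1,2): B' A C = A
    apply h1
    have := fin1 B' 1 (Commute.one_right _) (by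
      intro y
      have e1 := E1 y
      have e2 := E2 y
      rw [a2, a3] at e1
      rw [a1, a2] at e2
      rw [hC1, hone]
      have e11 : A 0 (y + B y) + 0 = A 3 y := congrArg Prod.fst e1
      have e12 : 0 + A 2 y = A 3 y := congrArg Prod.snd e1
      have e21 : A 0 y + 0 = B' (A 1 y) := congrArg Prod.fst e2
      have e22 : 0 + A 2 y = A 1 y := congrArg Prod.snd e2
      rw [zero_add] at e12 e22
      rw [add_zero] at e11 e21
      rw [e11, ← e12, e22, e21])
    rw [one_pow] at this
    exact this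
  · -- (3,2,1): C' A C = A
    apply h2
    have := fin1 (1 + B') 1 (Commute.one_right _) (by
      intro y
      have e1 := E1 y
      have e2 := E2 y
      rw [a2, a3] at e1
      rw [a1, a2] at e2
      rw [hC1, hC2, hone]
      have e11 : A 0 (y + B y) + A 2 y = 0 := congrArg Prod.fst e1
      have e21 : A 0 y + A 2 y = B' (A 1 y) := congrArg Prod.fst e2
      have e22 : 0 + A 2 y = A 1 y := congrArg Prod.snd e2
      rw [zero_add] at e22
      have e3 := eq_of_add e11
      rw [← e22] at e21
      have e4 := half _ _ _ e21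
      rw [e3, e4])
    rw [one_pow] at this
    exact this

end Pool.Agent.Helper998.Spread
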