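import Mathlib
import Pool.Agent.Helper998.SpreadNo

set_option autoImplicit false

namespace Pool.Agent.Helper998.Spread

open Set Pool.Agent.Helper998.VecMatroid Pool.Agent.Helper998.DualRep

/-- The companion operator of `z^6+z^4+z^3+z+1`. -/
def B1 : X →ₗ[ZMod 2] X where
  toFun x := ![x 1 + x 2 + x 4 + x 5, x 0, x 1, x 2, x 3, x 4]
  map_add' x y := by
    ext i
    fin_cases i <;> simp
    ring
  map_smul' c x := by
    ext i
    fin_cases i <;> simp
    ring

/-- The companion operator of `z^6+z+1`. -/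
def B2 : X →ₗ[ZMod 2] X where
  toFun x := ![x 4 + x 5, x 0, x 1, x 2, x 3, x 4]
  map_add' x y := by
    ext i
    fin_cases i <;> simp
    ring
  map_smul' c x := by
    ext i
    fin_cases i <;> simp
    ring

theorem B1_apply (x : X) : B1 x = ![x 1 + x 2 + x 4 + x 5, x 0, x 1, x 2, x 3, x 4] := rfl
theorem B2_apply (x : X) : B2 x = ![x 4 + x 5, x 0, x 1, x 2, x 3, x 4] := rfl

theorem ext6 {x y : X} (h0 : x 0 = y 0) (h1 : x 1 = y 1) (h2 : x 2 = y 2) (h3 : x 3 = y 3)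
    (h4 : x 4 = y 4) (h5 : x 5 = y 5) : x = y := by
  ext i
  fin_cases i <;> assumption

theorem B1_inj : Function.Injective B1 := by
  intro x y h
  have e : ∀ i, B1 x i = B1 y i := fun i => by rw [h]
  have e0 : x 1 + x 2 + x 4 + x 5 = y 1 + y 2 + y 4 + y 5 := e 0
  have e1 : x 0 = y 0 := e 1
  have e2 : x 1 = y 1 := e 2
  have e3 : x 2 = y 2 := e 3
  have e4 : x 3 = y 3 := e 4
  have e5 : x 4 = y 4 := e 5
  rw [e2, e3, e5] at e0
  exact ext6 e1 e2 e3 e4 e5 (add_left_cancel e0)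

theorem B2_inj : Function.Injective B2 := by
  intro x y h
  have e : ∀ i, B2 x i = B2 y i := fun i => by rw [h]
  have e0 : x 4 + x 5 = y 4 + y 5 := e 0
  have e1 : x 0 = y 0 := e 1
  have e2 : x 1 = y 1 := e 2
  have e3 : x 2 = y 2 := e 3
  have e4 : x 3 = y 3 := e 4
  have e5 : x 4 = y 4 := e 5
  rw [e5] at e0
  exact ext6 e1 e2 e3 e4 e5 (add_left_cancel e0)

theorem B_diff (x : X) : ∃ c : ZMod 2, B1 x = B2 x + c • eps := by
  refine ⟨x 1 + x 2, ?_⟩
  rw [B1_apply, B2_apply, eps]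
  ext i
  fin_cases i <;> simp
  ring

theorem tr_of_period {B : X →ₗ[ZMod 2] X} (hB : Function.Injective B)
    (h63 : (⇑B)^[63] eps = eps) (h9 : (⇑B)^[9] eps ≠ eps) (h21 : (⇑B)^[21] eps ≠ eps) :
    ∀ x : X, x ≠ 0 → ∃ k : ℕ, (B ^ k) x = eps := by
  classical
  have hper : Function.minimalPeriod (⇑B) eps = 63 := by
    have hd : Function.minimalPeriod (⇑B) eps ∣ 63 :=
      Function.IsPeriodicPt.minimalPeriod_dvd h63
    have h9' : ¬ Function.minimalPeriod (⇑B) eps ∣ 9 := by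
      intro h
      exact h9 ((Function.isPeriodicPt_iff_minimalPeriod_dvd).2 h)
    have h21' : ¬ Function.minimalPeriod (⇑B) eps ∣ 21 := by
      intro h
      exact h21 ((Function.isPeriodicPt_iff_minimalPeriod_dvd).2 h)
    have hle : Function.minimalPeriod (⇑B) eps ≤ 63 := Nat.le_of_dvd (by norm_num) hd
    generalize Function.minimalPeriod (⇑B) eps = m at *
    interval_cases m <;> revert hd h9' h21' <;> decide
  have hne : ∀ k, (⇑B)^[k] eps ≠ 0 := by
    intro k h0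
    apply eps_ne
    apply hB.iterate k
    rw [h0]
    have : (⇑B)^[k] 0 = (B ^ k) 0 := (Module.End.pow_apply B k 0).symm
    rw [this, map_zero]
  let F : Fin 63 → {x : X // x ≠ 0} := fun k => ⟨(⇑B)^[k.1] eps, hne k.1⟩
  have hF : Function.Injective F := by
    intro k l hkl
    have h1 : (⇑B)^[k.1] eps = (⇑B)^[l.1] eps := congrArg Subtype.val hkl
    have h2 := Function.iterate_injOn_Iio_minimalPeriod (f := ⇑B) (x := eps)
    rw [hper] at h2
    exact Fin.ext (h2 k.2 l.2 h1)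
  have hcard : Fintype.card (Fin 63) = Fintype.card {x : X // x ≠ 0} := by
    rw [Fintype.card_fin, Fintype.card_subtype_compl, card_X]
    simp
  have hbij : Function.Bijective F := (Fintype.bijective_iff_injective_and_card F).2 ⟨hF, hcard⟩
  intro x hx
  obtain ⟨k, hk⟩ := hbij.2 ⟨x, hx⟩
  have hk' : (⇑B)^[k.1] eps = x := congrArg Subtype.val hk
  refine ⟨63 - k.1, ?_⟩
  rw [Module.End.pow_apply, ← hk', ← Function.iterate_add_apply]
  have : 63 - k.1 + k.1 = 63 := by omega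
  rw [this, h63]

theorem B1_9 : (⇑B1)^[9] eps = ![0, 0, 1, 1, 1, 1] := by decide
theorem B1_18 : (⇑B1)^[18] eps = ![1, 0, 0, 0, 1, 0] := by
  rw [show (18 : ℕ) = 9 + 9 from rfl, Function.iterate_add_apply, B1_9]
  decide
theorem B1_27 : (⇑B1)^[27] eps = ![1, 0, 1, 1, 1, 1] := by
  rw [show (27 : ℕ) = 9 + 18 from rfl, Function.iterate_add_apply, B1_18]
  decide
theorem B1_36 : (⇑B1)^[36] eps = ![1, 0, 1, 1, 0, 1] := by
  rw [show (36 : ℕ) = 9 + 27 from rfl, Function.iterate_add_apply, B1_27]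
  decide
theorem B1_45 : (⇑B1)^[45] eps = ![0, 0, 1, 1, 0, 1] := by
  rw [show (45 : ℕ) = 9 + 36 from rfl, Function.iterate_add_apply, B1_36]
  decide
theorem B1_54 : (⇑B1)^[54] eps = ![0, 0, 0, 0, 1, 0] := by
  rw [show (54 : ℕ) = 9 + 45 from rfl, Function.iterate_add_apply, B1_45]
  decide
theorem B1_63 : (⇑B1)^[63] eps = ![1, 0, 0, 0, 0, 0] := by
  rw [show (63 : ℕ) = 9 + 54 from rfl, Function.iterate_add_apply, B1_54]
  decide
theorem B1_21 : (⇑B1)^[21] eps = ![0, 0, 1, 1, 0, 0] := by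
  rw [show (21 : ℕ) = 3 + 18 from rfl, Function.iterate_add_apply, B1_18]
  decide
theorem CB1_3 : (fun x => x + B1 x)^[3] eps = ![1, 0, 1, 1, 0, 0] := by decide
theorem CB1_6 : (fun x => x + B1 x)^[6] eps = ![0, 0, 1, 1, 0, 0] := by
  change (fun x : X => x + B1 x)^[3 + 3] eps = _
  rw [Function.iterate_add_apply, CB1_3]
  decide
theorem CB1_9 : (fun x => x + B1 x)^[9] eps = ![1, 0, 0, 0, 0, 0] := by
  rw [show (9 : ℕ) = 3 + 6 from rfl, Function.iterate_add_apply, CB1_6]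
  decide
theorem B2_9 : (⇑B2)^[9] eps = ![0, 0, 0, 1, 1, 0] := by decide
theorem B2_18 : (⇑B2)^[18] eps = ![1, 1, 1, 1, 0, 0] := by
  rw [show (18 : ℕ) = 9 + 9 from rfl, Function.iterate_add_apply, B2_9]
  decide
theorem B2_27 : (⇑B2)^[27] eps = ![0, 1, 1, 1, 0, 0] := by
  rw [show (27 : ℕ) = 9 + 18 from rfl, Function.iterate_add_apply, B2_18]
  decide
theorem B2_36 : (⇑B2)^[36] eps = ![0, 1, 1, 0, 1, 0] := by
  rw [show (36 : ℕ) = 9 + 27 from rfl, Function.iterate_add_apply, B2_27]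
  decide
theorem B2_45 : (⇑B2)^[45] eps = ![1, 0, 0, 1, 1, 0] := by
  rw [show (45 : ℕ) = 9 + 36 from rfl, Function.iterate_add_apply, B2_36]
  decide
theorem B2_54 : (⇑B2)^[54] eps = ![1, 1, 1, 0, 1, 0] := by
  rw [show (54 : ℕ) = 9 + 45 from rfl, Function.iterate_add_apply, B2_45]
  decide
theorem B2_63 : (⇑B2)^[63] eps = ![1, 0, 0, 0, 0, 0] := by
  rw [show (63 : ℕ) = 9 + 54 from rfl, Function.iterate_add_apply, B2_54]
  decide
theorem B2_21 : (⇑B2)^[21] eps = ![0, 1, 0, 1, 1, 1] := by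
  rw [show (21 : ℕ) = 3 + 18 from rfl, Function.iterate_add_apply, B2_18]
  decide
theorem CB2_3 : (fun x => x + B2 x)^[3] eps = ![1, 1, 1, 1, 0, 0] := by decide
theorem CB2_6 : (fun x => x + B2 x)^[6] eps = ![0, 1, 1, 0, 1, 0] := by
  change (fun x : X => x + B2 x)^[3 + 3] eps = _
  rw [Function.iterate_add_apply, CB2_3]
  decide
theorem CB2_9 : (fun x => x + B2 x)^[9] eps = ![1, 1, 1, 0, 1, 0] := by
  rw [show (9 : ℕ) = 3 + 6 from rfl, Function.iterate_add_apply, CB2_6]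
  decide

theorem good1 : Good B1 where
  inj := B1_inj
  tr := by
    apply tr_of_period B1_inj
    · rw [B1_63]; rfl
    · rw [B1_9]; decide
    · rw [B1_21]; decide
  ne := by decide

theorem good2 : Good B2 where
  inj := B2_inj
  tr := by
    apply tr_of_period B2_inj
    · rw [B2_63]; rfl
    · rw [B2_9]; decide
    · rw [B2_21]; decide
  ne := by decide

theorem pow_C (B : X →ₗ[ZMod 2] X) (k : ℕ) (x : X) :
    ((1 + B : Module.End (ZMod 2) X) ^ k) x = (fun x => x + B x)^[k] x := by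
  rw [Module.End.pow_apply]
  rfl

theorem pow_B (B : X →ₗ[ZMod 2] X) (k : ℕ) (x : X) :
    ((B : Module.End (ZMod 2) X) ^ k) x = (⇑B)^[k] x := Module.End.pow_apply B k x

/-- There is no matroid isomorphism. -/
theorem no_iso (f : L ≃ L)
    (hf : ∀ I : Set L, (vecMatroid (ZMod 2) (v B1))✶.Indep I ↔
      (vecMatroid (ZMod 2) (v B2))✶.Indep (f '' I)) : False := by
  obtain ⟨G, hG⟩ := lin_of_iso good1 good2 f (primal_iso f hf)
  obtain ⟨G', g', hg', hge'⟩ := transL good2 (f e0)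
  refine no_map good1 good2 ?_ ?_ ?_ ?_ (G.trans G') ?_ ?_
  · rw [pow_C, CB1_9]; rfl
  · rw [pow_B, B2_9]; decide
  · rw [pow_C, CB2_9]; decide
  · rw [pow_C, pow_B, CB2_9, B2_9]; decide
  · intro a x
    by_cases hx : x = 0
    · refine ⟨0, 0, ?_⟩
      rw [hx, map_zero, map_zero, map_zero]
    · have h1 : (G.trans G') (j B1 a x) = v B2 (g' (f (a, ⟨x, hx⟩))) := by
        rw [LinearEquiv.trans_apply, ← hg', ← hG]
        rfl
      exact ⟨(g' (f (a, ⟨x, hx⟩))).1, (g' (f (a, ⟨x, hx⟩))).2.1, h1⟩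
  · have h1 : (G.trans G') (v B1 e0) = v B2 (g' (f e0)) := by
      rw [LinearEquiv.trans_apply, ← hg', ← hG]
    rw [hge'] at h1
    exact h1

end Pool.Agent.Helper998.Spread
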